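import Mathlib
import Pool.Agent.Y68.UH.Low
import Pool.Agent.Y68.UH.Up

/-!
The least dimension of a projective space which contains a smooth unirational hypersurface of degree
`d`, over EVERY field `K` of characteristic zero (algebraically closed or not), with unirationality
over `K` itself: it is `d`.  One explicit form with coefficients `0` and `1`, the same for all fields,
does it in each dimension `n ≥ d ≥ 2`.
-/

set_option autoImplicit false

namespace Pool.Agent.Results.MP_8f100c_ag.EveryFieldCharZero

open MvPolynomial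

/-- The hypersurface `V(F)` in `P^n` over the field `K` is (geometrically) smooth: the partial
derivatives of `F` have no common zero on it, over the algebraic closure of `K`. -/
def SmoothForm {K : Type} [Field K] {n : ℕ} (F : MvPolynomial (Fin (n + 1)) K) : Prop :=
  ∀ p : Fin (n + 1) → AlgebraicClosure K, p ≠ 0 → aeval p F = 0 → ∃ i, aeval p (pderiv i F) ≠ 0

/-- The hypersurface `V(F)` in `P^n` is unirational over `K`: `F` is irreducible over `K` and there is
a dominant rational map over `K` from `A^N` to `V(F)`, given by `x_0, ..., x_n` in the field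
`K(t_1, ..., t_N)`, not all zero, with `F(x) = 0`, such that every form over `K` which vanishes at `x`
is a multiple of `F`. -/
def UnirationalForm {K : Type} [Field K] {n : ℕ} (F : MvPolynomial (Fin (n + 1)) K) : Prop :=
  Irreducible F ∧ ∃ (N : ℕ) (x : Fin (n + 1) → FractionRing (MvPolynomial (Fin N) K)),
    x ≠ 0 ∧ aeval x F = 0 ∧
      ∀ (e : ℕ) (G : MvPolynomial (Fin (n + 1)) K), G.IsHomogeneous e → aeval x G = 0 → F ∣ G

/-- `P^n` over `K` contains a smooth hypersurface of degree `d` which is unirational over `K`. -/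
def Realised (K : Type) [Field K] (d n : ℕ) : Prop :=
  ∃ F : MvPolynomial (Fin (n + 1)) K, F.IsHomogeneous d ∧ SmoothForm F ∧ UnirationalForm F

/-- The number `n(d)` for the field `K`: the least `n` such that `P^n` over `K` contains a smooth
hypersurface of degree `d` which is unirational over `K`. -/
noncomputable def leastDim (K : Type) [Field K] (d : ℕ) : ℕ := sInf {n : ℕ | Realised K d n}

/-- The chain form
`x_0^(d-1) x_1 + x_1^(d-1) x_2 + ... + x_(d-1)^(d-1) x_d + x_d^d + x_(d+1)^d + ... + x_n^d`
in the variables `x_0, ..., x_n` (for `d ≤ n`). -/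
noncomputable def chainForm (K : Type) [Field K] (d n : ℕ) : MvPolynomial (Fin (n + 1)) K :=
  ∑ i : Fin (n + 1), if (i : ℕ) < d then X i ^ (d - 1) * X (i + 1) else X i ^ d

/-- For every field `K` of characteristic zero and every `d ≥ 1`: `n(d) = d` over `K`, and `P^n` over
`K` contains a smooth hypersurface of degree `d` unirational over `K` exactly when `n ≥ d`.  For
`n ≥ d ≥ 2` the hypersurface of the chain form, whose coefficients are `0` and `1`, is smooth and
unirational over every field of characteristic zero. -/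
theorem result (K : Type) [Field K] [CharZero K] (d : ℕ) (hd : 1 ≤ d) :
    leastDim K d = d ∧ (∀ n : ℕ, Realised K d n ↔ d ≤ n) ∧
      (2 ≤ d → ∀ n : ℕ, d ≤ n → (chainForm K d n).IsHomogeneous d ∧ SmoothForm (chainForm K d n) ∧
        UnirationalForm (chainForm K d n)) := by
  have hchain : 2 ≤ d → ∀ n : ℕ, d ≤ n → (chainForm K d n).IsHomogeneous d ∧
      SmoothForm (chainForm K d n) ∧ UnirationalForm (chainForm K d n) := by
    intro hd n hn
    obtain ⟨m, rfl⟩ := Nat.exists_eq_add_of_le' hd
    obtain ⟨s, rfl⟩ := Nat.exists_eq_add_of_le hn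
    refine ⟨Pool.Agent.Y68.UH.chain_hom K m s, fun p hp _ =>
      Pool.Agent.Y68.UH.chain_smooth' K m s p hp, Pool.Agent.Y68.UH.chain_irreducible K m s, ?_⟩
    obtain ⟨x, h1, h2, h3⟩ := Pool.Agent.Y68.UH.chain_param K m s
    exact ⟨m + 2 + s, x, h1, h2, fun e G _ hG => h3 G hG⟩
  have key : ∀ n : ℕ, Realised K d n ↔ d ≤ n := by
    intro n
    constructor
    · rintro ⟨F, hF, hsm, -, N, x, hx, hxF, hdense⟩
      exact Pool.Agent.Y68.UH.lower d n N hd F hF hsm x hx hxF hdense
    · intro hn
      rcases Nat.lt_or_ge d 2 with h | h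
      · have hd1 : d = 1 := by omega
        subst hd1
        obtain ⟨F, h1, h2, h3, x, h4, h5, h6⟩ := Pool.Agent.Y68.UH.upper_one' K n hn
        exact ⟨F, h1, fun p _ _ => h3 p, h2, n, x, h4, h5, fun e G _ hG => h6 G hG⟩
      · obtain ⟨h1, h2, h3⟩ := hchain h n hn
        exact ⟨chainForm K d n, h1, h2, h3⟩
  refine ⟨?_, key, hchain⟩
  have h1 : d ∈ {n : ℕ | Realised K d n} := (key d).mpr le_rfl
  exact le_antisymm (Nat.sInf_le h1) ((key _).mp (Nat.sInf_mem ⟨d, h1⟩))

end Pool.Agent.Results.MP_8f100c_ag.EveryFieldCharZero
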